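import Pool.Agent.Work.MP_223b32_tl.Interface

/-!
# SUMD: the sum over the divisors
-/

namespace Pool.Agent.Work.TL

open Finset Polynomial

namespace SUMD

theorem sum_bound (S T : Finset ℕ) (f : ℕ → ℕ) (hf : ∀ d ∈ S, f d ∈ T)
    (hinj : ∀ d ∈ S, ∀ d' ∈ S, f d = f d' → d = d')
    (hφ : ∀ d ∈ S, (f d).totient ≤ d.totient) :
    ∑ d ∈ S, (2 : ℝ) ^ (-(d.totient : ℝ) / 2) ≤ ∑ e ∈ T, (2 : ℝ) ^ (-(e.totient : ℝ) / 2) := by
  classical
  calc ∑ d ∈ S, (2 : ℝ) ^ (-(d.totient : ℝ) / 2)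
      ≤ ∑ d ∈ S, (2 : ℝ) ^ (-((f d).totient : ℝ) / 2) := by
        refine Finset.sum_le_sum fun d hd => ?_
        refine Real.rpow_le_rpow_of_exponent_le (by norm_num) ?_
        have : ((f d).totient : ℝ) ≤ d.totient := by exact_mod_cast hφ d hd
        linarith
    _ = ∑ e ∈ S.image f, (2 : ℝ) ^ (-(e.totient : ℝ) / 2) := by
        rw [Finset.sum_image]
        exact fun d hd d' hd' h => hinj d hd d' hd' h
    _ ≤ ∑ e ∈ T, (2 : ℝ) ^ (-(e.totient : ℝ) / 2) := by
        refine Finset.sum_le_sum_of_subset_of_nonneg ?_ fun e _ _ => by positivity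
        intro e he
        obtain ⟨d, hd, rfl⟩ := Finset.mem_image.1 he
        exact hf d hd

theorem tot_le {a b : ℕ} (h : a ∣ b) (hb : 0 < b) : a.totient ≤ b.totient :=
  Nat.le_of_dvd (Nat.totient_pos.2 hb) (Nat.totient_dvd_of_dvd h)

theorem odd_of_dvd {a b : ℕ} (h : a ∣ b) (hb : Odd b) : Odd a := Odd.of_dvd_nat hb h

/-- `g` odd, `d ∣ 2 g`, `d` does not divide `g`. -/
theorem case3 {g d : ℕ} (hg : Odd g) (h1 : d ∣ 2 * g) (h2 : ¬ d ∣ g) :
    ∃ e, d = 2 * e ∧ e ∣ g := by
  rcases Nat.even_or_odd d with hd | hd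
  · obtain ⟨e, he⟩ := hd
    refine ⟨e, by omega, ?_⟩
    have h3 : 2 * e ∣ 2 * g := by
      have : d = 2 * e := by omega
      rwa [this] at h1
    exact Nat.dvd_of_mul_dvd_mul_left (by norm_num) h3
  · exfalso
    apply h2
    have hc : Nat.Coprime d 2 := (Nat.coprime_two_right).2 hd
    exact hc.dvd_of_dvd_mul_left h1

/-- `g' ` odd, `d ∣ 4 g'`, `d` does not divide `2 g'`. -/
theorem case5 {g d : ℕ} (hg : Odd g) (h1 : d ∣ 4 * g) (h2 : ¬ d ∣ 2 * g) :
    ∃ e, d = 4 * e ∧ e ∣ g := by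
  rcases Nat.even_or_odd d with hd | hd
  · obtain ⟨e, he⟩ := hd
    have hde : d = 2 * e := by omega
    have h3 : e ∣ 2 * g := by
      have : 2 * e ∣ 2 * (2 * g) := by
        rw [← hde, ← mul_assoc]
        exact h1
      exact Nat.dvd_of_mul_dvd_mul_left (by norm_num) this
    have h4 : ¬ e ∣ g := by
      intro h
      apply h2
      rw [hde]
      exact Nat.mul_dvd_mul_left 2 h
    obtain ⟨e', he', hdv⟩ := case3 hg h3 h4
    exact ⟨e', by omega, hdv⟩
  · exfalso
    apply h2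
    have hc : Nat.Coprime d 4 := by
      have : Nat.Coprime d 2 := (Nat.coprime_two_right).2 hd
      have h22 : (4 : ℕ) = 2 ^ 2 := by norm_num
      rw [h22]
      exact this.pow_right 2
    exact (hc.dvd_of_dvd_mul_left h1).mul_left 2

end SUMD

open SUMD in
theorem stmt_SUMD : Stmt_SUMD := by
  intro n hn hn3
  rcases hn with hn | hn | hn
  · -- n = 3 mod 8
    have he : eta n = -1 := by
      unfold eta
      rw [if_neg (by omega)]
    have hd0 : d0 n = 2 := by
      unfold d0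
      rw [if_neg (by omega), if_pos hn]
    have hgo : Odd (n / 2) := by
      rw [Nat.odd_iff]
      omega
    have hg0 : 0 < n / 2 := by omega
    rw [he, hd0]
    have key : ∀ d ∈ (DD (n / 2) (-1)).erase 2, ∃ e, d = 2 * e ∧ e ∣ n / 2 ∧ Odd e ∧ 1 < e := by
      intro d hd
      obtain ⟨hd2, hd⟩ := Finset.mem_erase.1 hd
      unfold DD at hd
      rw [if_neg (by norm_num), Finset.mem_filter, Nat.mem_divisors] at hd
      obtain ⟨e, he1, he2⟩ := case3 hgo hd.1.1 hd.2
      have ho := odd_of_dvd he2 hgo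
      refine ⟨e, he1, he2, ho, ?_⟩
      have : 0 < e := Nat.pos_of_dvd_of_pos he2 hg0
      omega
    refine sum_bound _ _ (fun d => d / 2) ?_ ?_ ?_
    · intro d hd
      obtain ⟨e, rfl, h1, h2, h3⟩ := key d hd
      have : 2 * e / 2 = e := by omega
      simp only [this]
      exact Finset.mem_filter.2 ⟨Nat.mem_divisors.2 ⟨h1, by omega⟩, h2, h3⟩
    · intro d hd d' hd' h
      obtain ⟨e, rfl, -⟩ := key d hd
      obtain ⟨e', rfl, -⟩ := key d' hd'
      have h' : 2 * e / 2 = 2 * e' / 2 := h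
      omega
    · intro d hd
      obtain ⟨e, rfl, h1, h2, h3⟩ := key d hd
      have : 2 * e / 2 = e := by omega
      simp only [this]
      exact tot_le ⟨2, by ring⟩ (by omega)
  · -- n = 5 mod 8
    have he : eta n = -1 := by
      unfold eta
      rw [if_neg (by omega)]
    have hd0 : d0 n = 4 := by
      unfold d0
      rw [if_neg (by omega), if_neg (by omega)]
    obtain ⟨g', hg'⟩ : ∃ g', n / 2 = 2 * g' := ⟨n / 4, by omega⟩
    have hgo : Odd g' := by
      rw [Nat.odd_iff]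
      omega
    have hg0 : 0 < g' := by omega
    rw [he, hd0]
    have key : ∀ d ∈ (DD (n / 2) (-1)).erase 4, ∃ e, d = 4 * e ∧ e ∣ n / 2 ∧ Odd e ∧ 1 < e := by
      intro d hd
      obtain ⟨hd2, hd⟩ := Finset.mem_erase.1 hd
      unfold DD at hd
      rw [if_neg (by norm_num), Finset.mem_filter, Nat.mem_divisors] at hd
      rw [hg'] at hd
      have h4 : 2 * (2 * g') = 4 * g' := by ring
      rw [h4] at hd
      obtain ⟨e, he1, he2⟩ := case5 hgo hd.1.1 hd.2
      have ho := odd_of_dvd he2 hgo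
      refine ⟨e, he1, ?_, ho, ?_⟩
      · rw [hg']
        exact he2.mul_left 2
      · have : 0 < e := Nat.pos_of_dvd_of_pos he2 hg0
        omega
    refine sum_bound _ _ (fun d => d / 4) ?_ ?_ ?_
    · intro d hd
      obtain ⟨e, rfl, h1, h2, h3⟩ := key d hd
      have : 4 * e / 4 = e := by omega
      simp only [this]
      exact Finset.mem_filter.2 ⟨Nat.mem_divisors.2 ⟨h1, by omega⟩, h2, h3⟩
    · intro d hd d' hd' h
      obtain ⟨e, rfl, -⟩ := key d hd
      obtain ⟨e', rfl, -⟩ := key d' hd'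
      have h' : 4 * e / 4 = 4 * e' / 4 := h
      omega
    · intro d hd
      obtain ⟨e, rfl, h1, h2, h3⟩ := key d hd
      have : 4 * e / 4 = e := by omega
      simp only [this]
      exact tot_le ⟨4, by ring⟩ (by omega)
  · -- n = 7 mod 8
    have he : eta n = 1 := by
      unfold eta
      rw [if_pos hn]
    have hd0 : d0 n = 1 := by
      unfold d0
      rw [if_pos hn]
    have hgo : Odd (n / 2) := by
      rw [Nat.odd_iff]
      omega
    have hg0 : 0 < n / 2 := by omega
    rw [he, hd0]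
    refine sum_bound _ _ id ?_ (fun _ _ _ _ h => h) fun _ _ => le_refl _
    intro d hd
    obtain ⟨hd1, hd⟩ := Finset.mem_erase.1 hd
    unfold DD at hd
    rw [if_pos rfl] at hd
    have hdv := (Nat.mem_divisors.1 hd).1
    have : 0 < d := Nat.pos_of_dvd_of_pos hdv hg0
    exact Finset.mem_filter.2 ⟨hd, odd_of_dvd hdv hgo, by simp only [id]; omega⟩

end Pool.Agent.Work.TL
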